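import Pool.Agent.J4H48.HB.Stm

/-!
Project HB of helper48, job LAT: bounded vectors of the embeddings of integers are finitely many.
-/

set_option autoImplicit false

open Polynomial NumberField

namespace Pool.Agent.J4H72.HB

open Pool.Agent.J4H48.HB

theorem t_LAT : S_LAT := by
  intro K _ _ R
  have h := (NumberField.Embeddings.finite_of_norm_le K ℂ R).image
    (fun (y : K) (τ : K →+* ℂ) => τ y)
  refine h.subset ?_
  rintro v ⟨⟨x, hx⟩, hv⟩
  refine ⟨algebraMap (𝓞 K) K x, ⟨?_, fun τ => ?_⟩, ?_⟩
  · exact x.2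
  · rw [← hx τ]; exact hv τ
  · funext τ
    exact (hx τ).symm

end Pool.Agent.J4H72.HB
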